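import Pool.Agent.H.MP_79314c_pr.Defs

namespace Pool.Agent.H.MP_79314c_pr
open Finset

lemma sum_Ico_split (f : ℤ → ℤ) {a b c : ℤ} (h1 : a ≤ b) (h2 : b ≤ c) :
    ∑ x ∈ Ico a c, f x = ∑ x ∈ Ico a b, f x + ∑ x ∈ Ico b c, f x := by
  rw [← Finset.sum_union (Finset.Ico_disjoint_Ico_consecutive a b c),
    Finset.Ico_union_Ico_eq_Ico h1 h2]

lemma tele (f : ℤ → ℤ) {a b : ℤ} (h : a ≤ b) :
    ∑ x ∈ Ico a b, (f (x + 1) - f x) = f b - f a := by
  induction b, h using Int.le_induction with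
  | base => simp
  | succ b hb ih =>
    rw [sum_Ico_split _ hb (by omega : b ≤ b + 1), ih]
    have : Ico b (b + 1) = {b} := by ext x; simp; omega
    rw [this]; simp

lemma tv_ge (f : ℤ → ℤ) {a b : ℤ} (h : a ≤ b) :
    |f b - f a| ≤ ∑ x ∈ Ico a b, |f (x + 1) - f x| := by
  rw [← tele f h]; exact Finset.abs_sum_le_sum_abs _ _

lemma tv_loop (f : ℤ → ℤ) {L U p q : ℤ} (hp1 : L ≤ p) (hp2 : p ≤ U) (hq1 : L ≤ q) (hq2 : q ≤ U)
    (hf : f L = f U) : 2 * (f q - f p) ≤ ∑ x ∈ Ico L U, |f (x + 1) - f x| := by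
  rcases le_total p q with h | h
  · rw [sum_Ico_split _ hp1 hp2, sum_Ico_split _ h hq2]
    have h1 := tv_ge f hp1
    have h2 := tv_ge f h
    have h3 := tv_ge f hq2
    have := neg_abs_le (f p - f L)
    have := le_abs_self (f q - f p)
    have := neg_abs_le (f U - f q)
    linarith
  · rw [sum_Ico_split _ hq1 hq2, sum_Ico_split _ h hp2]
    have h1 := tv_ge f hq1
    have h2 := tv_ge f h
    have h3 := tv_ge f hp2
    have := le_abs_self (f q - f L)
    have := neg_abs_le (f p - f q)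
    have := le_abs_self (f U - f p)
    linarith

lemma tv_bump (f : ℤ → ℤ) {L U c : ℤ} (h1 : L ≤ c) (h2 : c ≤ U) (h0 : ∀ x, 0 ≤ f x)
    (hl : ∀ x, x < c → f x ≤ f (x + 1)) (hr : ∀ x, c ≤ x → f (x + 1) ≤ f x) :
    ∑ x ∈ Ico L U, |f (x + 1) - f x| ≤ 2 * f c := by
  rw [sum_Ico_split _ h1 h2]
  have e1 : ∑ x ∈ Ico L c, |f (x + 1) - f x| = ∑ x ∈ Ico L c, (f (x + 1) - f x) :=
    Finset.sum_congr rfl fun x hx => abs_of_nonneg (by have := hl x (mem_Ico.1 hx).2; linarith)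
  have e2 : ∑ x ∈ Ico c U, |f (x + 1) - f x| = ∑ x ∈ Ico c U, ((-f) (x + 1) - (-f) x) :=
    Finset.sum_congr rfl fun x hx => by
      rw [abs_of_nonpos (by have := hr x (mem_Ico.1 hx).1; linarith)]; simp; ring
  rw [e1, e2, tele f h1, tele (-f) h2]
  have := h0 L
  have := h0 U
  simp only [Pi.neg_apply]; linarith

lemma lip1 (f : ℤ → ℤ) (hf : ∀ x, |f (x + 1) - f x| ≤ 2) (a b : ℤ) :
    |f b - f a| ≤ 2 * |b - a| := by
  have key : ∀ a b : ℤ, a ≤ b → |f b - f a| ≤ 2 * (b - a) := by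
    intro a b h
    refine (tv_ge f h).trans ?_
    refine (Finset.sum_le_card_nsmul _ _ 2 fun x _ => hf x).trans ?_
    simp only [Int.card_Ico, nsmul_eq_mul]
    rw [Int.toNat_of_nonneg (by omega)]; linarith
  rcases le_total a b with h | h
  · rw [abs_of_nonneg (by omega : 0 ≤ b - a)]; exact key a b h
  · rw [abs_sub_comm, abs_sub_comm b a, abs_of_nonneg (by omega : 0 ≤ a - b)]; exact key b a h

lemma const1 (f : ℤ → ℤ) (hf : ∀ x, f (x + 1) = f x) (a b : ℤ) : f a = f b := by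
  have key : ∀ a b : ℤ, a ≤ b → f a = f b := by
    intro a b h
    have := tele f h
    simp only [hf, sub_self, Finset.sum_const_zero] at this
    linarith
  rcases le_total a b with h | h
  · exact key a b h
  · exact (key b a h).symm

lemma psi_in (b c : ℤ) (i : ℕ) :
    ∑ x ∈ Ico (c - i) (c + i + 1), (b - 2 * |x - c|) = (2 * i + 1) * b - 2 * i * (i + 1) := by
  induction i with
  | zero =>
    have : Ico (c - ((0 : ℕ) : ℤ)) (c + ((0 : ℕ) : ℤ) + 1) = {c} := by ext x; simp; omega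
    rw [this]; simp
  | succ i ih =>
    rw [sum_Ico_split _ (by push_cast; omega : c - ((i + 1 : ℕ) : ℤ) ≤ c - i)
      (by push_cast; omega), sum_Ico_split _ (by omega : c - (i : ℤ) ≤ c + i + 1)
      (by push_cast; omega), ih]
    have e1 : Ico (c - ((i + 1 : ℕ) : ℤ)) (c - i) = {c - i - 1} := by
      ext x; simp; omega
    have e2 : Ico (c + i + 1) (c + ((i + 1 : ℕ) : ℤ) + 1) = {c + i + 1} := by
      ext x; simp; omega
    rw [e1, e2, Finset.sum_singleton, Finset.sum_singleton,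
      abs_of_nonpos (by omega : c - i - 1 - c ≤ 0), abs_of_nonneg (by omega : 0 ≤ c + i + 1 - c)]
    push_cast; ring

lemma psi (b c R : ℤ) (hb : 0 ≤ b) (h1 : -R ≤ c - b) (h2 : c + b ≤ R) :
    2 * ∑ x ∈ Ico (-R) (R + 1), max (b - 2 * |x - c|) 0 = b ^ 2 + b % 2 := by
  obtain ⟨i, hi⟩ : ∃ i : ℕ, (i : ℤ) = b / 2 := ⟨(b / 2).toNat, Int.toNat_of_nonneg (by omega)⟩
  have hs : ∑ x ∈ Ico (c - i) (c + i + 1), max (b - 2 * |x - c|) 0
      = ∑ x ∈ Ico (-R) (R + 1), max (b - 2 * |x - c|) 0 := by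
    refine Finset.sum_subset (fun x hx => ?_) (fun x _ hx => ?_)
    · simp only [mem_Ico] at hx ⊢; omega
    · simp only [mem_Ico] at hx
      rcases abs_cases (x - c) with h | h <;> omega
  rw [← hs]
  have e : ∑ x ∈ Ico (c - i) (c + i + 1), max (b - 2 * |x - c|) 0
      = ∑ x ∈ Ico (c - i) (c + i + 1), (b - 2 * |x - c|) :=
    Finset.sum_congr rfl fun x hx => by
      simp only [mem_Ico] at hx
      rcases abs_cases (x - c) with h | h <;> omega
  rw [e, psi_in]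
  rcases Int.emod_two_eq_zero_or_one b with h | h
  · have : b = 2 * i := by omega
    rw [h, this]; ring
  · have : b = 2 * i + 1 := by omega
    rw [h, this]; ring

/-- Absolute gradient of a potential along an edge. -/
def grad (h : V → ℤ) (e : Edge) : ℕ := (h (e.1 + unit e.2) - h e.1).natAbs

/-- Edges based in a box. -/
noncomputable def box (R : ℤ) : Finset Edge := (Ico (-R) (R + 1) ×ˢ Ico (-R) (R + 1)) ×ˢ univ

lemma mem_box {R : ℤ} {e : Edge} :
    e ∈ box R ↔ (-R ≤ e.1.1 ∧ e.1.1 ≤ R) ∧ (-R ≤ e.1.2 ∧ e.1.2 ≤ R) := by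
  simp only [box, mem_product, mem_Ico, mem_univ, and_true]; omega

lemma grad_h (h : V → ℤ) (x y : ℤ) :
    (grad h ((x, y), false) : ℤ) = |h (x + 1, y) - h (x, y)| := by
  simp [grad, unit]

lemma grad_v (h : V → ℤ) (x y : ℤ) :
    (grad h ((x, y), true) : ℤ) = |h (x, y + 1) - h (x, y)| := by
  simp [grad, unit]

lemma tv_eq (h : V → ℤ) (R : ℤ) : ((∑ e ∈ box R, grad h e : ℕ) : ℤ) =
    ∑ y ∈ Ico (-R) (R + 1), ∑ x ∈ Ico (-R) (R + 1), |h (x + 1, y) - h (x, y)| +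
    ∑ x ∈ Ico (-R) (R + 1), ∑ y ∈ Ico (-R) (R + 1), |h (x, y + 1) - h (x, y)| := by
  rw [Finset.sum_comm (s := Ico (-R) (R + 1)) (t := Ico (-R) (R + 1))
    (f := fun y x => |h (x + 1, y) - h (x, y)|), ← Finset.sum_add_distrib]
  push_cast
  rw [box, Finset.sum_product, Finset.sum_product]
  refine Finset.sum_congr rfl fun x _ => ?_
  rw [← Finset.sum_add_distrib]
  refine Finset.sum_congr rfl fun y _ => ?_
  rw [Fintype.sum_bool, grad_h, grad_v, add_comm]

/-- Admissible potentials. -/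
structure Adm (R j m : ℤ) (h : V → ℤ) : Prop where
  h0 : h (0, 0) = 0
  hm : h (m, 0) = 4 * j + 2
  lo : ∀ v, 0 ≤ h v
  hi : ∀ v, h v ≤ 4 * j + 2
  lip : ∀ e, grad h e ≤ 2
  supp : ∀ e, e ∉ box R → grad h e = 0

section
variable {R j m : ℤ} {h : V → ℤ}

lemma Adm.liph (H : Adm R j m h) (x x' y : ℤ) : |h (x', y) - h (x, y)| ≤ 2 * |x' - x| :=
  lip1 (fun x => h (x, y)) (fun x => by
    have := H.lip ((x, y), false); rw [← grad_h]; exact_mod_cast this) x x'

lemma Adm.lipv (H : Adm R j m h) (x y y' : ℤ) : |h (x, y') - h (x, y)| ≤ 2 * |y' - y| :=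
  lip1 (fun y => h (x, y)) (fun y => by
    have := H.lip ((x, y), true); rw [← grad_v]; exact_mod_cast this) y y'

lemma Adm.zh (H : Adm R j m h) {x y : ℤ} (hxy : ¬((-R ≤ x ∧ x ≤ R) ∧ (-R ≤ y ∧ y ≤ R))) :
    h (x + 1, y) = h (x, y) := by
  have := H.supp ((x, y), false) (by rw [mem_box]; exact hxy)
  have h2 := grad_h h x y
  rw [this] at h2
  have := abs_eq_zero.1 h2.symm
  linarith

lemma Adm.zv (H : Adm R j m h) {x y : ℤ} (hxy : ¬((-R ≤ x ∧ x ≤ R) ∧ (-R ≤ y ∧ y ≤ R))) :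
    h (x, y + 1) = h (x, y) := by
  have := H.supp ((x, y), true) (by rw [mem_box]; exact hxy)
  have h2 := grad_v h x y
  rw [this] at h2
  have := abs_eq_zero.1 h2.symm
  linarith

lemma Adm.outx (H : Adm R j m h) {x : ℤ} (hx : ¬(-R ≤ x ∧ x ≤ R)) (y : ℤ) :
    h (x, y) = h (-R - 1, -R - 1) := by
  rw [const1 (fun y => h (x, y)) (fun y => H.zv (by tauto)) y (-R - 1)]
  exact const1 (fun x => h (x, -R - 1)) (fun x => H.zh (by omega)) _ _

lemma Adm.outy (H : Adm R j m h) {y : ℤ} (hy : ¬(-R ≤ y ∧ y ≤ R)) (x : ℤ) :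
    h (x, y) = h (-R - 1, -R - 1) := by
  rw [const1 (fun x => h (x, y)) (fun x => H.zh (by tauto)) x (-R - 1)]
  exact H.outx (by omega) y

lemma Adm.edx (H : Adm R j m h) (y : ℤ) : h (-R, y) = h (-R - 1, -R - 1) := by
  have := H.zh (x := -R - 1) (y := y) (by omega)
  rw [sub_add_cancel] at this
  rw [this]; exact H.outx (by omega) y

lemma Adm.edy (H : Adm R j m h) (x : ℤ) : h (x, -R) = h (-R - 1, -R - 1) := by
  have := H.zv (x := x) (y := -R - 1) (by omega)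
  rw [sub_add_cancel] at this
  rw [this]; exact H.outy (by omega) x

theorem Adm.main (H : Adm R j m h) (hj : 0 ≤ j) (hm : 0 ≤ m) (hR : m + 4 * j + 2 ≤ R) :
    16 * j ^ 2 + 16 * j + 8 ≤ ((∑ e ∈ box R, grad h e : ℕ) : ℤ) ∧
    (((∑ e ∈ box R, grad h e : ℕ) : ℤ) ≤ 16 * j ^ 2 + 16 * j + 8 →
      2 * j ≤ h (-R - 1, -R - 1) ∧ h (-R - 1, -R - 1) ≤ 2 * j + 2 ∧
      ∀ x y, -R ≤ x → x ≤ R → min (h (-R - 1, -R - 1)) (2 * |x|) ≤ h (x, y) ∧
        h (x, y) ≤ max (h (-R - 1, -R - 1)) (4 * j + 2 - 2 * |x - m|)) := by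
  set a := h (-R - 1, -R - 1) with ha
  have a0 : 0 ≤ a := H.lo _
  have a1 : a ≤ 4 * j + 2 := H.hi _
  have row : ∀ y ∈ Ico (-R) (R + 1), 2 * (max (a - 2 * |y - 0|) 0 +
      max (4 * j + 2 - a - 2 * |y - 0|) 0) ≤
      ∑ x ∈ Ico (-R) (R + 1), |h (x + 1, y) - h (x, y)| := by
    intro y _
    have e : h (-R, y) = h (R + 1, y) := by rw [H.edx, H.outx (x := R + 1) (by omega)]
    have t1 := tv_loop (fun x => h (x, y)) (L := -R) (U := R + 1) (p := 0) (q := m)
      (by omega) (by omega) (by omega) (by omega) e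
    have t2 := tv_loop (fun x => h (x, y)) (L := -R) (U := R + 1) (p := 0) (q := -R)
      (by omega) (by omega) (by omega) (by omega) e
    have t3 := tv_loop (fun x => h (x, y)) (L := -R) (U := R + 1) (p := -R) (q := m)
      (by omega) (by omega) (by omega) (by omega) e
    have t4 := tv_loop (fun x => h (x, y)) (L := -R) (U := R + 1) (p := -R) (q := -R)
      (by omega) (by omega) (by omega) (by omega) e
    have l1 := (abs_le.1 (H.lipv 0 0 y)).2
    have l2 := (abs_le.1 (H.lipv m 0 y)).1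
    rw [H.h0] at l1; rw [H.hm] at l2
    simp only [H.edx, ← ha] at t2 t3 t4
    omega
  have colk : ∀ x, ∀ p q, -R ≤ p → p ≤ R + 1 → -R ≤ q → q ≤ R + 1 →
      2 * (h (x, q) - h (x, p)) ≤ ∑ y ∈ Ico (-R) (R + 1), |h (x, y + 1) - h (x, y)| := by
    intro x p q h1 h2 h3 h4
    have e : h (x, -R) = h (x, R + 1) := by rw [H.edy, H.outy (y := R + 1) (by omega)]
    exact tv_loop (fun y => h (x, y)) h1 h2 h3 h4 e
  have l1 : ∀ x, h (x, 0) ≤ 2 * |x - 0| := fun x => by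
    have := (abs_le.1 (H.liph 0 x 0)).2; rw [H.h0] at this; omega
  have l2 : ∀ x, 4 * j + 2 - 2 * |x - m| ≤ h (x, 0) := fun x => by
    have := (abs_le.1 (H.liph m x 0)).1; rw [H.hm] at this; omega
  have col : ∀ x ∈ Ico (-R) (R + 1), 2 * (max (a - 2 * |x - 0|) 0 +
      max (4 * j + 2 - a - 2 * |x - m|) 0) ≤
      ∑ y ∈ Ico (-R) (R + 1), |h (x, y + 1) - h (x, y)| := by
    intro x _
    have t2 := colk x 0 (-R) (by omega) (by omega) (by omega) (by omega)
    have t3 := colk x (-R) 0 (by omega) (by omega) (by omega) (by omega)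
    rw [H.edy, ← ha] at t2 t3
    have := l1 x
    have := l2 x
    omega
  have p1 := psi a 0 R a0 (by omega) (by omega)
  have p2 := psi (4 * j + 2 - a) 0 R (by omega) (by omega) (by omega)
  have p3 := psi (4 * j + 2 - a) m R (by omega) (by omega) (by omega)
  have srow := Finset.sum_le_sum row
  have scol := Finset.sum_le_sum col
  have erow : ∑ y ∈ Ico (-R) (R + 1), 2 * (max (a - 2 * |y - 0|) 0 +
      max (4 * j + 2 - a - 2 * |y - 0|) 0) = a ^ 2 + a % 2 + ((4 * j + 2 - a) ^ 2 +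
        (4 * j + 2 - a) % 2) := by
    rw [← p1, ← p2, ← Finset.mul_sum, Finset.sum_add_distrib]; ring
  have ecol : ∑ x ∈ Ico (-R) (R + 1), 2 * (max (a - 2 * |x - 0|) 0 +
      max (4 * j + 2 - a - 2 * |x - m|) 0) = a ^ 2 + a % 2 + ((4 * j + 2 - a) ^ 2 +
        (4 * j + 2 - a) % 2) := by
    rw [← p1, ← p3, ← Finset.mul_sum, Finset.sum_add_distrib]; ring
  have sq : a ^ 2 + (4 * j + 2 - a) ^ 2 = 8 * j ^ 2 + 8 * j + 2 + 2 * (a - (2 * j + 1)) ^ 2 := by
    ring
  have low : 8 * j ^ 2 + 8 * j + 4 ≤ a ^ 2 + a % 2 + ((4 * j + 2 - a) ^ 2 +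
      (4 * j + 2 - a) % 2) := by
    rcases eq_or_ne a (2 * j + 1) with h1 | h1
    · have : a % 2 = 1 := by omega
      have : (4 * j + 2 - a) % 2 = 1 := by omega
      nlinarith [sq_nonneg (a - (2 * j + 1))]
    · have : 1 ≤ (a - (2 * j + 1)) ^ 2 := by
        have : a - (2 * j + 1) ≠ 0 := by omega
        have : 0 < (a - (2 * j + 1)) ^ 2 := by positivity
        omega
      have : 0 ≤ a % 2 := by omega
      have : 0 ≤ (4 * j + 2 - a) % 2 := by omega
      linarith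
  rw [tv_eq]
  refine ⟨by linarith, fun hle => ?_⟩
  have hsq : (a - (2 * j + 1)) ^ 2 ≤ 1 := by
    have : 0 ≤ a % 2 := by omega
    have : 0 ≤ (4 * j + 2 - a) % 2 := by omega
    linarith
  have hab := abs_le.1 (sq_le_one_iff_abs_le_one _ |>.1 hsq)
  refine ⟨by omega, by omega, fun x y hx1 hx2 => ?_⟩
  have eqc := (Finset.sum_eq_sum_iff_of_le col).1 (by linarith) x (by simp; omega)
  by_cases hy : -R ≤ y ∧ y ≤ R
  · have t1 := colk x y (-R) (by omega) (by omega) (by omega) (by omega)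
    have t2 := colk x y 0 (by omega) (by omega) (by omega) (by omega)
    have t3 := colk x (-R) y (by omega) (by omega) (by omega) (by omega)
    have t4 := colk x 0 y (by omega) (by omega) (by omega) (by omega)
    rw [H.edy, ← ha] at t1 t3
    have := l1 x
    have := l2 x
    rw [← eqc] at t1 t2 t3 t4
    simp only [sub_zero] at *
    constructor <;> omega
  · rw [H.outy hy, ← ha]; exact ⟨min_le_left _ _, le_max_left _ _⟩

end

end Pool.Agent.H.MP_79314c_pr
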