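import Pool.Agent.H.MP_79314c_pr.A

namespace Pool.Agent.H.MP_79314c_pr
open Finset

lemma const2 (f : V → ℤ) (hf : ∀ v d, f (v + unit d) = f v) (v : V) : f v = f (0, 0) := by
  obtain ⟨x, y⟩ := v
  rw [const1 (fun x => f (x, y)) (fun x => by simpa [unit] using hf (x, y) false) x 0]
  exact const1 (fun y => f (0, y)) (fun y => by simpa [unit] using hf (0, y) true) y 0

section
variable {R j m : ℤ} {h g : V → ℤ}

lemma Adm.le_of_grad (H : Adm R j m h) (G : Adm R j m g) (hj : 0 ≤ j) (hm : 0 ≤ m)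
    (hR : m + 4 * j + 2 ≤ R)
    (hle : ((∑ e ∈ box R, grad h e : ℕ) : ℤ) ≤ 16 * j ^ 2 + 16 * j + 8)
    (hgr : grad h = grad g) (v : V) : g v ≤ h v := by
  set k : V → ℤ := fun v => min (max (h v) (g v)) (h v + 1) with hk
  have hkl : ∀ e, grad k e ≤ grad h e := by
    intro e
    have := congrFun hgr e
    simp only [grad, hk] at this ⊢
    omega
  have K : Adm R j m k := by
    refine ⟨?_, ?_, fun v => ?_, fun v => ?_, fun e => (hkl e).trans (H.lip e), fun e he => ?_⟩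
    · simp only [hk, H.h0, G.h0]; rfl
    · simp only [hk, H.hm, G.hm]; omega
    · have := H.lo v; simp only [hk]; omega
    · have := H.hi v; have := G.hi v; simp only [hk]; omega
    · have := hkl e; rw [H.supp e he] at this; omega
  have h1 := (K.main hj hm hR).1
  have h2 : ∑ e ∈ box R, grad k e = ∑ e ∈ box R, grad h e := by
    have := Finset.sum_le_sum (fun e (_ : e ∈ box R) => hkl e)
    have h3 : ((∑ e ∈ box R, grad h e : ℕ) : ℤ) ≤ ((∑ e ∈ box R, grad k e : ℕ) : ℤ) := by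
      linarith
    have := Int.ofNat_le.1 h3
    omega
  have h3 : ∀ e, grad k e = grad h e := by
    intro e
    by_cases he : e ∈ box R
    · exact (Finset.sum_eq_sum_iff_of_le (fun e _ => hkl e)).1 h2 e he
    · rw [K.supp e he, H.supp e he]
  have h4 := const2 (fun v => k v - h v) (fun v d => by
    have := h3 (v, d)
    simp only [grad, hk] at this ⊢
    omega) v
  simp only [hk, H.h0, G.h0] at h4
  omega

lemma Adm.uniq (H : Adm R j m h) (G : Adm R j m g) (hj : 0 ≤ j) (hm : 0 ≤ m)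
    (hR : m + 4 * j + 2 ≤ R)
    (hle : ((∑ e ∈ box R, grad h e : ℕ) : ℤ) ≤ 16 * j ^ 2 + 16 * j + 8)
    (hgr : grad h = grad g) : h = g :=
  funext fun v => le_antisymm (G.le_of_grad H hj hm hR (hgr ▸ hle) hgr.symm v)
    (H.le_of_grad G hj hm hR hle hgr v)

end

/-- Integer cost of a path. -/
def cost (ω : Edge → ℕ) (u : V) (l : List Step) : ℕ := ((edges u l).map ω).sum

lemma endpt_snoc (u : V) (l : List Step) (s : Step) :
    endpt u (l ++ [s]) = move (endpt u l) s := by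
  induction l generalizing u with
  | nil => rfl
  | cons a l ih => exact ih _

lemma cost_snoc (ω : Edge → ℕ) (u : V) (l : List Step) (s : Step) :
    cost ω u (l ++ [s]) = cost ω u l + ω (edgeOf (endpt u l) s) := by
  induction l generalizing u with
  | nil => simp [cost, edges, endpt]
  | cons a l ih =>
    have := ih (move u a)
    simp only [cost, List.cons_append, edges, List.map_cons, List.sum_cons, endpt] at this ⊢
    omega

lemma grad_edgeOf (h : V → ℤ) (u : V) (s : Step) :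
    grad h (edgeOf u s) = (h (move u s) - h u).natAbs := by
  obtain ⟨d, _ | _⟩ := s
  · simp only [grad, edgeOf, move, Bool.false_eq_true, if_false, sub_add_cancel]; omega
  · simp [grad, edgeOf, move]

lemma le_cost (h : V → ℤ) (u : V) (l : List Step) :
    h (endpt u l) - h u ≤ cost (grad h) u l := by
  induction l generalizing u with
  | nil => simp [endpt, cost, edges]
  | cons a l ih =>
    have := ih (move u a)
    have h2 := grad_edgeOf h u a
    simp only [cost, edges, List.map_cons, List.sum_cons, endpt] at this ⊢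
    omega

/-- Truncated distance from the origin. -/
noncomputable def pot (ω : Edge → ℕ) (t : ℕ) (v : V) : ℕ :=
  sInf {c : ℕ | c = t ∨ ∃ l, endpt (0, 0) l = v ∧ c = cost ω (0, 0) l}

lemma pot_le (ω : Edge → ℕ) (t : ℕ) (v : V) : pot ω t v ≤ t := Nat.sInf_le (Or.inl rfl)

lemma pot_zero (ω : Edge → ℕ) (t : ℕ) : pot ω t (0, 0) = 0 :=
  Nat.le_zero.1 (Nat.sInf_le (Or.inr ⟨[], rfl, rfl⟩))

lemma pot_mem (ω : Edge → ℕ) (t : ℕ) (v : V) :
    pot ω t v = t ∨ ∃ l, endpt (0, 0) l = v ∧ pot ω t v = cost ω (0, 0) l :=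
  Nat.sInf_mem (s := {c : ℕ | c = t ∨ ∃ l, endpt (0, 0) l = v ∧ c = cost ω (0, 0) l})
    ⟨t, Or.inl rfl⟩

lemma pot_move (ω : Edge → ℕ) (t : ℕ) (v : V) (s : Step) :
    pot ω t (move v s) ≤ pot ω t v + ω (edgeOf v s) := by
  rcases pot_mem ω t v with h | ⟨l, h1, h2⟩
  · have := pot_le ω t (move v s); omega
  · refine Nat.sInf_le (Or.inr ⟨l ++ [s], ?_, ?_⟩)
    · rw [endpt_snoc, h1]
    · rw [cost_snoc, h1, h2]

lemma grad_pot (ω : Edge → ℕ) (t : ℕ) (e : Edge) : grad (fun v => (pot ω t v : ℤ)) e ≤ ω e := by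
  obtain ⟨v, d⟩ := e
  have h1 := pot_move ω t v (d, true)
  have h2 := pot_move ω t (v + unit d) (d, false)
  simp only [move, edgeOf, if_true, Bool.false_eq_true, if_false, add_sub_cancel_right] at h1 h2
  simp only [grad]
  omega

/-- Configurations in the box. -/
def Cfg (R : ℤ) : Set (Edge → ℕ) := {ω | (∀ e, e ∉ box R → ω e = 0) ∧ ∀ e, ω e ≤ 2}

/-- Every path from the origin to `(m,0)` costs at least `4j+2`. -/
def Good (j : ℕ) (m : ℤ) (ω : Edge → ℕ) : Prop :=
  ∀ l, endpt (0, 0) l = (m, 0) → 4 * j + 2 ≤ cost ω (0, 0) l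

/-- Cheapest good configurations. -/
def Mn (R : ℤ) (j : ℕ) (m : ℤ) : Set (Edge → ℕ) :=
  {ω | ω ∈ Cfg R ∧ ∑ e ∈ box R, ω e ≤ 16 * j ^ 2 + 16 * j + 8 ∧ Good j m ω}

lemma cfg_finite (R : ℤ) : (Cfg R).Finite := by
  classical
  refine Set.Finite.subset (Set.finite_range (fun (f : box R → Fin 3) (e : Edge) =>
    if h : e ∈ box R then (f ⟨e, h⟩ : ℕ) else 0)) fun ω hω => ?_
  refine ⟨fun e => ⟨ω e, by have := hω.2 e; omega⟩, funext fun e => ?_⟩
  by_cases h : e ∈ box R
  · simp [h]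
  · simp [h, hω.1 e h]

lemma mn_finite (R : ℤ) (j : ℕ) (m : ℤ) : (Mn R j m).Finite :=
  (cfg_finite R).subset fun _ h => h.1

section
variable {R m : ℤ} {j : ℕ}

lemma mn_pot {ω : Edge → ℕ} (hω : ω ∈ Mn R j m) (hm : 0 ≤ m) (hR : m + 4 * j + 2 ≤ R) :
    Adm R j m (fun v => (pot ω (4 * j + 2) v : ℤ)) ∧
      grad (fun v => (pot ω (4 * j + 2) v : ℤ)) = ω ∧
      ∑ e ∈ box R, ω e = 16 * j ^ 2 + 16 * j + 8 := by
  have H : Adm R j m (fun v => (pot ω (4 * j + 2) v : ℤ)) := by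
    refine ⟨by simp [pot_zero], ?_, fun v => by positivity, fun v => ?_,
      fun e => (grad_pot ω _ e).trans (hω.1.2 e), fun e he => ?_⟩
    · rcases pot_mem ω (4 * j + 2) (m, 0) with h | ⟨l, h1, h2⟩
      · simp only [h]; push_cast; ring
      · have := hω.2.2 l h1
        have := pot_le ω (4 * j + 2) (m, 0)
        omega
    · have := pot_le ω (4 * j + 2) v
      omega
    · have := grad_pot ω (4 * j + 2) e
      rw [hω.1.1 e he] at this; omega
  have h1 := (H.main (by positivity) hm hR).1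
  have h2 := Finset.sum_le_sum (fun e (_ : e ∈ box R) => grad_pot ω (4 * j + 2) e)
  have h3 := hω.2.1
  have h4 : 16 * j ^ 2 + 16 * j + 8 ≤ ∑ e ∈ box R, grad (fun v => (pot ω (4 * j + 2) v : ℤ)) e := by
    exact_mod_cast h1
  refine ⟨H, funext fun e => ?_, by omega⟩
  by_cases he : e ∈ box R
  · exact (Finset.sum_eq_sum_iff_of_le (fun e _ => grad_pot ω (4 * j + 2) e)).1 (by omega) e he
  · rw [H.supp e he, hω.1.1 e he]

lemma Adm.mem_mn {h : V → ℤ} (H : Adm R j m h)
    (hle : ∑ e ∈ box R, grad h e ≤ 16 * j ^ 2 + 16 * j + 8) : grad h ∈ Mn R j m := by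
  refine ⟨⟨H.supp, H.lip⟩, hle, fun l hl => ?_⟩
  have := le_cost h (0, 0) l
  rw [hl, H.hm, H.h0] at this
  omega

end

/-- Deleting the column `j+1`, on configurations. -/
def Phi (j : ℤ) (ω : Edge → ℕ) (e : Edge) : ℕ :=
  (if e.1.1 ≤ j then ω e else 0) + (if j ≤ e.1.1 then ω ((e.1.1 + 1, e.1.2), e.2) else 0)

/-- Deleting the column `j+1`, on potentials. -/
def del (j : ℤ) (h : V → ℤ) (v : V) : ℤ := if v.1 ≤ j then h v else h (v.1 + 1, v.2)

lemma shift_sum {R j : ℤ} (hj : 0 ≤ j) (f : ℕ → ℕ) (f0 : f 0 = 0) {ω : Edge → ℕ}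
    (hω : ∀ e, e ∉ box R → ω e = 0) :
    ∑ e ∈ box R, f (if j ≤ e.1.1 then ω ((e.1.1 + 1, e.1.2), e.2) else 0) =
      ∑ e ∈ box R, f (if j + 1 ≤ e.1.1 then ω e else 0) := by
  refine Finset.sum_bij_ne_zero (fun e _ _ => ((e.1.1 + 1, e.1.2), e.2)) ?_ ?_ ?_ ?_
  · intro e _ hne
    by_contra hc
    rw [hω _ hc] at hne
    simp [f0] at hne
  · rintro ⟨⟨x, y⟩, d⟩ _ _ ⟨⟨x', y'⟩, d'⟩ _ _ h
    simp only [Prod.mk.injEq] at h ⊢
    exact ⟨⟨by omega, h.1.2⟩, h.2⟩
  · rintro ⟨⟨x, y⟩, d⟩ hb hne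
    have hx : j + 1 ≤ x := by
      by_contra hc
      simp [hc, f0] at hne
    refine ⟨((x - 1, y), d), ?_, ?_, by simp⟩
    · rw [mem_box] at hb ⊢; simp only at hb ⊢; omega
    · simp only [sub_add_cancel]
      rw [if_pos (by omega)]; rwa [if_pos hx] at hne
  · rintro ⟨⟨x, y⟩, d⟩ _ _
    simp

lemma split_sum (R j : ℤ) (f : ℕ → ℕ) (f0 : f 0 = 0) (ω : Edge → ℕ) :
    ∑ e ∈ box R, f (ω e) = ∑ e ∈ box R, f (if e.1.1 ≤ j then ω e else 0) +
      ∑ e ∈ box R, f (if j + 1 ≤ e.1.1 then ω e else 0) := by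
  rw [← Finset.sum_add_distrib]
  refine Finset.sum_congr rfl fun e _ => ?_
  by_cases h : e.1.1 ≤ j
  · rw [if_pos h, if_neg (by omega), f0, add_zero]
  · rw [if_neg h, if_pos (by omega), f0, zero_add]

lemma phi_sum {R j : ℤ} (hj : 0 ≤ j) {ω : Edge → ℕ} (hω : ∀ e, e ∉ box R → ω e = 0) :
    ∑ e ∈ box R, Phi j ω e = ∑ e ∈ box R, ω e := by
  have h1 := split_sum R j id rfl ω
  have h2 := shift_sum hj id rfl hω
  simp only [id] at h1 h2
  rw [h1, ← h2, ← Finset.sum_add_distrib]; rfl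

/-- Indicator of weight two. -/
def two (n : ℕ) : ℕ := if n = 2 then 1 else 0

/-- Number of edges of weight two. -/
noncomputable def N2 (R : ℤ) (ω : Edge → ℕ) : ℕ := ∑ e ∈ box R, two (ω e)

lemma two_add {a b : ℕ} (h : a + b ≤ 2) : two a + two b ≤ two (a + b) := by
  unfold two; split_ifs <;> omega

lemma phi_N2 {R j : ℤ} (hj : 0 ≤ j) {ω : Edge → ℕ} (hω : ∀ e, e ∉ box R → ω e = 0)
    (h2 : ∀ e, Phi j ω e ≤ 2) : N2 R ω ≤ N2 R (Phi j ω) := by
  unfold N2
  rw [split_sum R j two rfl ω, ← shift_sum hj two rfl hω, ← Finset.sum_add_distrib]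
  exact Finset.sum_le_sum fun e _ => two_add (h2 e)

lemma phi_N2_lt {R j : ℤ} (hj : 0 ≤ j) (hR : j ≤ R) {ω : Edge → ℕ}
    (hω : ∀ e, e ∉ box R → ω e = 0) (h2 : ∀ e, Phi j ω e ≤ 2)
    (e1 : ω ((j, 0), false) = 1) (e2 : ω ((j + 1, 0), false) = 1) :
    N2 R ω < N2 R (Phi j ω) := by
  unfold N2
  rw [split_sum R j two rfl ω, ← shift_sum hj two rfl hω, ← Finset.sum_add_distrib]
  refine Finset.sum_lt_sum (fun e _ => two_add (h2 e)) ⟨((j, 0), false), ?_, ?_⟩
  · rw [mem_box]; simp only; omega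
  · simp [Phi, e1, e2, two]

section
variable {R j : ℤ} {h : V → ℤ}

lemma Adm.cols (H : Adm R j (2 * j + 2) h) (hj : 0 ≤ j) (hR : 6 * j + 4 ≤ R)
    (hle : ((∑ e ∈ box R, grad h e : ℕ) : ℤ) ≤ 16 * j ^ 2 + 16 * j + 8) (y : ℤ) :
    h (j + 1, y) = h (-R - 1, -R - 1) ∧ h (j, y) ≤ h (j + 1, y) ∧ h (j + 1, y) ≤ h (j + 2, y) ∧
      h (j + 2, y) ≤ h (j, y) + 2 := by
  obtain ⟨a1, a2, a3⟩ := (H.main hj (by omega) (by omega)).2 hle
  have c0 := a3 j y (by omega) (by omega)
  have c1 := a3 (j + 1) y (by omega) (by omega)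
  have c2 := a3 (j + 2) y (by omega) (by omega)
  rw [abs_of_nonneg (by omega), abs_of_nonpos (by omega)] at c0 c1 c2
  omega

lemma Adm.grad_del (H : Adm R j (2 * j + 2) h) (hj : 0 ≤ j) (hR : 6 * j + 4 ≤ R)
    (hle : ((∑ e ∈ box R, grad h e : ℕ) : ℤ) ≤ 16 * j ^ 2 + 16 * j + 8) :
    grad (del j h) = Phi j (grad h) := by
  funext ⟨⟨x, y⟩, d⟩
  have c := H.cols hj hR hle y
  have c' := H.cols hj hR hle (y + 1)
  cases d
  · simp only [grad, del, Phi, unit, Bool.false_eq_true, if_false, Prod.mk_add_mk, add_zero]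
    rcases lt_trichotomy x j with hx | rfl | hx
    · rw [if_pos (by omega), if_pos (by omega), if_pos (by omega), if_neg (by omega), add_zero]
    · rw [if_neg (by omega), if_pos le_rfl, if_pos le_rfl, if_pos le_rfl,
        show x + 1 + 1 = x + 2 by ring]
      omega
    · rw [if_neg (by omega), if_neg (by omega), if_neg (by omega), if_pos (by omega), zero_add]
  · simp only [grad, del, Phi, unit, if_true, Prod.mk_add_mk, add_zero]
    rcases lt_trichotomy x j with hx | rfl | hx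
    · rw [if_pos (by omega), if_pos (by omega), if_pos (by omega), if_neg (by omega), add_zero]
    · rw [if_pos le_rfl, if_pos le_rfl, if_pos le_rfl, if_pos le_rfl]
      omega
    · rw [if_neg (by omega), if_neg (by omega), if_neg (by omega), if_pos (by omega), zero_add]

lemma Adm.adm_del (H : Adm R j (2 * j + 2) h) (hj : 0 ≤ j) (hR : 6 * j + 4 ≤ R)
    (hle : ((∑ e ∈ box R, grad h e : ℕ) : ℤ) ≤ 16 * j ^ 2 + 16 * j + 8) :
    Adm R j (2 * j + 1) (del j h) := by
  refine ⟨?_, ?_, fun v => ?_, fun v => ?_, ?_, ?_⟩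
  · simp only [del]; rw [if_pos hj, H.h0]
  · simp only [del]; rw [if_neg (by omega), show 2 * j + 1 + 1 = 2 * j + 2 by ring, H.hm]
  · unfold del; split_ifs <;> exact H.lo _
  · unfold del; split_ifs <;> exact H.hi _
  · rintro ⟨⟨x, y⟩, d⟩
    by_cases hx : x = j ∧ d = false
    · obtain ⟨rfl, rfl⟩ := hx
      have c := H.cols hj hR hle y
      simp only [grad, del, unit, Bool.false_eq_true, if_false, Prod.mk_add_mk, add_zero]
      rw [if_neg (by omega), if_pos le_rfl, show x + 1 + 1 = x + 2 by ring]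
      omega
    · rw [H.grad_del hj hR hle]
      have l1 := H.lip ((x, y), d)
      have l2 := H.lip ((x + 1, y), d)
      simp only [Phi]
      rcases lt_trichotomy x j with hx' | rfl | hx'
      · rw [if_pos (by omega), if_neg (by omega)]; omega
      · have c := H.cols hj hR hle y
        have c' := H.cols hj hR hle (y + 1)
        obtain rfl : d = true := by simpa using hx
        have : grad h ((x + 1, y), true) = 0 := by
          simp only [grad, unit, if_true, Prod.mk_add_mk, add_zero]; omega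
        rw [if_pos le_rfl, if_pos le_rfl, this]; omega
      · rw [if_neg (by omega), if_pos (by omega)]; omega
  · rintro ⟨⟨x, y⟩, d⟩ he
    rw [H.grad_del hj hR hle]
    simp only [Phi]
    rw [H.supp _ he]
    split_ifs with h1 h2 h2
    · rw [H.supp]; rw [mem_box] at he ⊢; simp only at he ⊢; omega
    · rfl
    · rw [H.supp]; rw [mem_box] at he ⊢; simp only at he ⊢; omega
    · rfl

end

end Pool.Agent.H.MP_79314c_pr
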