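import Pool.Agent.H.MP_79314c_pr.B

namespace Pool.Agent.H.MP_79314c_pr
open Finset

/-- A square pyramid. -/
def pyr (a x y : ℤ) : ℤ := max (a - 2 * max |x| |y|) 0

/-- The extremal potential with two equal pockets. -/
def hex (j : ℤ) (v : V) : ℤ :=
  2 * j + 1 - pyr (2 * j + 1) v.1 v.2 + pyr (2 * j + 1) (v.1 - (2 * j + 2)) v.2

lemma pyr_symm (a x y : ℤ) : pyr a x y = pyr a y x := by simp [pyr, max_comm]

lemma pyr_tv (a c y L U : ℤ) (h1 : L ≤ c) (h2 : c ≤ U) :
    ∑ x ∈ Ico L U, |pyr a (x + 1 - c) y - pyr a (x - c) y| ≤ 2 * max (a - 2 * |y|) 0 := by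
  have := tv_bump (fun x => pyr a (x - c) y) h1 h2 (fun x => le_max_right _ _)
    (fun x hx => by
      simp only [pyr]
      rw [abs_of_nonpos (by omega : x - c ≤ 0), abs_of_nonpos (by omega : x + 1 - c ≤ 0)]
      omega)
    (fun x hx => by
      simp only [pyr]
      rw [abs_of_nonneg (by omega : 0 ≤ x - c), abs_of_nonneg (by omega : 0 ≤ x + 1 - c)]
      omega)
  refine this.trans (le_of_eq ?_)
  simp only [pyr, sub_self, abs_zero]
  rw [max_eq_right (abs_nonneg y)]

lemma pyr_lip (a x y : ℤ) : (pyr a (x + 1) y - pyr a x y).natAbs ≤ 2 := by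
  simp only [pyr, Int.abs_eq_natAbs]; omega

lemma pyr_lip' (a x y : ℤ) : (pyr a x (y + 1) - pyr a x y).natAbs ≤ 2 := by
  rw [pyr_symm a x, pyr_symm a x]; exact pyr_lip a y x

lemma pyr_zero {j x y : ℤ} (h : j + 1 ≤ x ∨ x ≤ -j - 1 ∨ j + 1 ≤ y ∨ y ≤ -j - 1) :
    pyr (2 * j + 1) x y = 0 := by
  simp only [pyr, Int.abs_eq_natAbs]; omega

lemma hex_adm {R j : ℤ} (hj : 0 ≤ j) (hR : 6 * j + 4 ≤ R) : Adm R j (2 * j + 2) (hex j) := by
  refine ⟨?_, ?_, ?_, ?_, ?_, ?_⟩
  · simp only [hex, pyr, abs_zero, zero_sub, abs_neg]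
    rw [abs_of_nonneg (by omega)]; omega
  · simp only [hex, pyr, abs_zero, sub_self]
    rw [abs_of_nonneg (by omega)]; omega
  · rintro ⟨x, y⟩
    have := abs_nonneg x
    have := abs_nonneg y
    simp only [hex, pyr]; omega
  · rintro ⟨x, y⟩
    have := abs_nonneg (x - (2 * j + 2))
    have := abs_nonneg y
    simp only [hex, pyr]; omega
  · rintro ⟨⟨x, y⟩, _ | _⟩
    · simp only [grad, hex, unit, Bool.false_eq_true, if_false, Prod.mk_add_mk, add_zero]
      have l1 := pyr_lip (2 * j + 1) x y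
      have l2 := pyr_lip (2 * j + 1) (x - (2 * j + 2)) y
      rw [show x - (2 * j + 2) + 1 = x + 1 - (2 * j + 2) by ring] at l2
      rcases le_or_gt x j with hx | hx
      · rw [pyr_zero (x := x + 1 - (2 * j + 2)) (by omega),
          pyr_zero (x := x - (2 * j + 2)) (by omega)]
        omega
      · rw [pyr_zero (x := x + 1) (by omega), pyr_zero (x := x) (by omega)]
        omega
    · simp only [grad, hex, unit, if_true, Prod.mk_add_mk, add_zero]
      have l1 := pyr_lip' (2 * j + 1) x y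
      have l2 := pyr_lip' (2 * j + 1) (x - (2 * j + 2)) y
      rcases le_or_gt x j with hx | hx
      · rw [pyr_zero (x := x - (2 * j + 2)) (y := y + 1) (by omega),
          pyr_zero (x := x - (2 * j + 2)) (y := y) (by omega)]
        omega
      · rw [pyr_zero (x := x) (y := y + 1) (by omega), pyr_zero (x := x) (y := y) (by omega)]
        omega
  · rintro ⟨⟨x, y⟩, _ | _⟩ he <;> rw [mem_box] at he
    · simp only [grad, hex, unit, Bool.false_eq_true, if_false, Prod.mk_add_mk, add_zero] at he ⊢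
      rw [pyr_zero (by omega), pyr_zero (by omega), pyr_zero (by omega), pyr_zero (by omega)]
      simp
    · simp only [grad, hex, unit, if_true, Prod.mk_add_mk, add_zero] at he ⊢
      rw [pyr_zero (by omega), pyr_zero (by omega), pyr_zero (by omega), pyr_zero (by omega)]
      simp

lemma hex_tv {R j : ℤ} (hj : 0 ≤ j) (hR : 6 * j + 4 ≤ R) :
    ((∑ e ∈ box R, grad (hex j) e : ℕ) : ℤ) ≤ 16 * j ^ 2 + 16 * j + 8 := by
  rw [tv_eq]
  have row : ∀ y ∈ Ico (-R) (R + 1), ∑ x ∈ Ico (-R) (R + 1), |hex j (x + 1, y) - hex j (x, y)| ≤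
      4 * max (2 * j + 1 - 2 * |y - 0|) 0 := by
    intro y _
    have t1 := pyr_tv (2 * j + 1) 0 y (-R) (R + 1) (by omega) (by omega)
    have t2 := pyr_tv (2 * j + 1) (2 * j + 2) y (-R) (R + 1) (by omega) (by omega)
    have := Finset.sum_le_sum (s := Ico (-R) (R + 1))
      (f := fun x => |hex j (x + 1, y) - hex j (x, y)|)
      (g := fun x => |pyr (2 * j + 1) (x + 1 - 0) y - pyr (2 * j + 1) (x - 0) y| +
        |pyr (2 * j + 1) (x + 1 - (2 * j + 2)) y - pyr (2 * j + 1) (x - (2 * j + 2)) y|)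
      (fun x _ => by simp only [hex, sub_zero, Int.abs_eq_natAbs]; omega)
    rw [Finset.sum_add_distrib] at this
    rw [sub_zero y]; linarith
  have col : ∀ x ∈ Ico (-R) (R + 1), ∑ y ∈ Ico (-R) (R + 1), |hex j (x, y + 1) - hex j (x, y)| ≤
      2 * max (2 * j + 1 - 2 * |x - 0|) 0 + 2 * max (2 * j + 1 - 2 * |x - (2 * j + 2)|) 0 := by
    intro x _
    have t1 := pyr_tv (2 * j + 1) 0 x (-R) (R + 1) (by omega) (by omega)
    have t2 := pyr_tv (2 * j + 1) 0 (x - (2 * j + 2)) (-R) (R + 1) (by omega) (by omega)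
    have := Finset.sum_le_sum (s := Ico (-R) (R + 1))
      (f := fun y => |hex j (x, y + 1) - hex j (x, y)|)
      (g := fun y => |pyr (2 * j + 1) (y + 1 - 0) x - pyr (2 * j + 1) (y - 0) x| +
        |pyr (2 * j + 1) (y + 1 - 0) (x - (2 * j + 2)) -
          pyr (2 * j + 1) (y - 0) (x - (2 * j + 2))|)
      (fun y _ => by
        simp only [hex, sub_zero, pyr_symm _ y, pyr_symm _ (y + 1), Int.abs_eq_natAbs]; omega)
    rw [Finset.sum_add_distrib] at this
    rw [sub_zero x]; linarith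
  have p1 := psi (2 * j + 1) 0 R (by omega) (by omega) (by omega)
  have p2 := psi (2 * j + 1) (2 * j + 2) R (by omega) (by omega) (by omega)
  have s1 := Finset.sum_le_sum row
  have s2 := Finset.sum_le_sum col
  rw [← Finset.mul_sum] at s1
  rw [Finset.sum_add_distrib, ← Finset.mul_sum, ← Finset.mul_sum] at s2
  have : (2 * j + 1) % 2 = 1 := by omega
  rw [this] at p1 p2
  nlinarith

lemma phi_mn {R : ℤ} {j : ℕ} (hR : 6 * j + 4 ≤ R) {ω : Edge → ℕ} (hω : ω ∈ Mn R j (2 * j + 2)) :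
    Phi j ω ∈ Mn R j (2 * j + 1) := by
  obtain ⟨H, hg, hs⟩ := mn_pot hω (by positivity) (by omega)
  have hle : ((∑ e ∈ box R, grad (fun v => (pot ω (4 * j + 2) v : ℤ)) e : ℕ) : ℤ) ≤
      16 * j ^ 2 + 16 * j + 8 := by rw [hg, hs]; push_cast; rfl
  have h1 := H.grad_del (by positivity) hR hle
  rw [hg] at h1
  rw [← h1]
  refine (H.adm_del (by positivity) hR hle).mem_mn ?_
  rw [h1, phi_sum (by positivity) hω.1.1, hs]

lemma phi_inj {R : ℤ} {j : ℕ} (hR : 6 * j + 4 ≤ R) :
    Set.InjOn (Phi j) (Mn R j (2 * j + 2)) := by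
  intro ω hω ω' hω' he
  obtain ⟨H, hg, hs⟩ := mn_pot hω (by positivity) (by omega)
  obtain ⟨H', hg', hs'⟩ := mn_pot hω' (by positivity) (by omega)
  set h := fun v => (pot ω (4 * j + 2) v : ℤ)
  set h' := fun v => (pot ω' (4 * j + 2) v : ℤ)
  have hle : ((∑ e ∈ box R, grad h e : ℕ) : ℤ) ≤ 16 * j ^ 2 + 16 * j + 8 := by
    rw [hg, hs]; push_cast; rfl
  have hle' : ((∑ e ∈ box R, grad h' e : ℕ) : ℤ) ≤ 16 * j ^ 2 + 16 * j + 8 := by
    rw [hg', hs']; push_cast; rfl
  have h1 := H.grad_del (by positivity) hR hle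
  have h1' := H'.grad_del (by positivity) hR hle'
  have hd : del j h = del j h' := by
    refine (H.adm_del (by positivity) hR hle).uniq (H'.adm_del (by positivity) hR hle')
      (by positivity) (by positivity) (by omega) ?_ ?_
    · rw [h1, hg, phi_sum (by positivity) hω.1.1, hs]; push_cast; rfl
    · rw [h1, h1', hg, hg', he]
  have : h = h' := by
    funext ⟨x, y⟩
    rcases lt_trichotomy x (j + 1) with hx | rfl | hx
    · have := congrFun hd (x, y)
      simp only [del] at this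
      rwa [if_pos (by omega), if_pos (by omega)] at this
    · rw [(H.cols (by positivity) hR hle y).1, (H'.cols (by positivity) hR hle' y).1]
      have := congrFun hd (-R - 1, -R - 1)
      simp only [del] at this
      rwa [if_pos (by omega), if_pos (by omega)] at this
    · have := congrFun hd (x - 1, y)
      simp only [del] at this
      rwa [if_neg (by omega), if_neg (by omega), sub_add_cancel] at this
  rw [← hg, ← hg', this]

theorem z_lt {R : ℤ} {j : ℕ} (hR : 6 * j + 4 ≤ R) :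
    ∑ ω ∈ (mn_finite R j (2 * j + 2)).toFinset, 2 ^ N2 R ω <
      ∑ ω ∈ (mn_finite R j (2 * j + 1)).toFinset, 2 ^ N2 R ω := by
  classical
  have hj : (0 : ℤ) ≤ j := by positivity
  have h1 : ∑ ω ∈ (mn_finite R j (2 * j + 2)).toFinset, 2 ^ N2 R ω <
      ∑ ω ∈ (mn_finite R j (2 * j + 2)).toFinset, 2 ^ N2 R (Phi j ω) := by
    refine Finset.sum_lt_sum (fun ω hω => ?_) ⟨grad (hex j), ?_, ?_⟩
    · rw [Set.Finite.mem_toFinset] at hω
      exact Nat.pow_le_pow_right (by norm_num) (phi_N2 hj hω.1.1 (phi_mn hR hω).1.2)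
    · rw [Set.Finite.mem_toFinset]
      exact (hex_adm hj hR).mem_mn (by exact_mod_cast hex_tv hj hR)
    · have hm := (hex_adm hj hR).mem_mn (by exact_mod_cast hex_tv hj hR)
      refine Nat.pow_lt_pow_right (by norm_num)
        (phi_N2_lt hj (by omega) hm.1.1 (phi_mn hR hm).1.2 ?_ ?_)
      · simp only [grad, hex, pyr, unit, Bool.false_eq_true, if_false, Prod.mk_add_mk, add_zero,
          Int.abs_eq_natAbs]
        omega
      · simp only [grad, hex, pyr, unit, Bool.false_eq_true, if_false, Prod.mk_add_mk, add_zero,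
          Int.abs_eq_natAbs]
        omega
  refine h1.trans_le ?_
  rw [← Finset.sum_image (s := (mn_finite R j (2 * j + 2)).toFinset) (g := Phi j)
    (f := fun ω => 2 ^ N2 R ω) (by simpa using phi_inj hR)]
  refine Finset.sum_le_sum_of_subset fun ω hω => ?_
  obtain ⟨ω', h1, rfl⟩ := Finset.mem_image.1 hω
  rw [Set.Finite.mem_toFinset] at h1 ⊢
  exact phi_mn hR h1

/-- Clamping to a square. -/
def clamp (r : ℤ) (v : V) : V := (max (-r) (min v.1 r), max (-r) (min v.2 r))

/-- The lines carrying the boundary of the square. -/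
def ring (r : ℤ) (e : Edge) : Prop := if e.2 then |e.1.1| = r else |e.1.2| = r

lemma clamp_step {r : ℤ} (hr : 0 ≤ r) (u : V) (s : Step) :
    clamp r (move u s) = clamp r u ∨ (clamp r (move u s) = move (clamp r u) s ∧
      edgeOf (clamp r u) s ∈ box r ∧
      (edgeOf (clamp r u) s = edgeOf u s ∨ ring r (edgeOf (clamp r u) s))) := by
  obtain ⟨x, y⟩ := u
  obtain ⟨_ | _, _ | _⟩ := s <;>
    simp only [clamp, move, edgeOf, unit, ring, mem_box, Bool.false_eq_true, if_false, if_true,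
      Prod.mk_add_mk, Prod.mk_sub_mk, add_zero, sub_zero, Prod.mk.injEq, and_true, true_and,
      Int.abs_eq_natAbs] <;> omega

lemma clamp_path {r : ℤ} (hr : 0 ≤ r) (ω : Edge → ℕ) (hω : ∀ e, ring r e → ω e = 0) (u : V)
    (l : List Step) : ∃ l', endpt (clamp r u) l' = clamp r (endpt u l) ∧
      (∀ e ∈ edges (clamp r u) l', e ∈ box r) ∧ cost ω (clamp r u) l' ≤ cost ω u l := by
  induction l generalizing u with
  | nil => exact ⟨[], rfl, by simp [edges], le_rfl⟩
  | cons s l ih =>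
    obtain ⟨l', h1, h2, h3⟩ := ih (move u s)
    rcases clamp_step hr u s with h | ⟨h, hb, he⟩
    · rw [h] at h1 h2 h3
      refine ⟨l', h1, h2, h3.trans ?_⟩
      simp only [cost, edges, List.map_cons, List.sum_cons]; omega
    · rw [h] at h1 h2 h3
      refine ⟨s :: l', h1, ?_, ?_⟩
      · intro e he'
        simp only [edges, List.mem_cons] at he'
        rcases he' with rfl | he'
        · exact hb
        · exact h2 e he'
      · simp only [cost, edges, List.map_cons, List.sum_cons] at h3 ⊢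
        rcases he with he | he
        · rw [he]; omega
        · rw [hω _ he]; omega

lemma exists_ring {R : ℤ} (ω : Edge → ℕ) (hω : ∀ e, e ∉ box R → ω e = 0) (m : ℤ) (K : ℕ)
    (hK : ∑ e ∈ box R, ω e ≤ K) : ∃ r, m ≤ r ∧ r ≤ m + K ∧ ∀ e, ring r e → ω e = 0 := by
  classical
  by_contra hc
  push Not at hc
  have hc' : ∀ r : ℤ, ∃ e, m ≤ r → r ≤ m + K → ring r e ∧ ω e ≠ 0 := fun r => by
    by_cases h : m ≤ r ∧ r ≤ m + K
    · obtain ⟨e, he⟩ := hc r h.1 h.2; exact ⟨e, fun _ _ => he⟩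
    · exact ⟨((0, 0), true), fun h1 h2 => absurd ⟨h1, h2⟩ h⟩
  choose f hf using hc'
  have h1 : (Icc m (m + K)).card ≤ ((box R).filter fun e => ω e ≠ 0).card := by
    refine Finset.card_le_card_of_injOn f (fun r hr => ?_) (fun r hr r' hr' he => ?_)
    · simp only [coe_Icc, Set.mem_Icc] at hr
      have := (hf r hr.1 hr.2).2
      simp only [coe_filter, Set.mem_setOf_eq]
      exact ⟨by_contra fun h => this (hω _ h), this⟩
    · simp only [coe_Icc, Set.mem_Icc] at hr hr'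
      have a1 := (hf r hr.1 hr.2).1
      have a2 := (hf r' hr'.1 hr'.2).1
      rw [he] at a1
      unfold ring at a1 a2
      split_ifs at a1 a2 <;> omega
  have h2 : ((box R).filter fun e => ω e ≠ 0).card ≤ ∑ e ∈ box R, ω e := by
    rw [Finset.card_filter]
    exact Finset.sum_le_sum fun e _ => by split_ifs <;> omega
  simp only [Int.card_Icc] at h1
  omega

lemma reroute {R m : ℤ} {j : ℕ} (hm : 0 ≤ m) (hR : m + (16 * j ^ 2 + 16 * j + 8 : ℕ) ≤ R) :
    ∃ L : ℕ, ∀ ω ∈ Cfg R, ∑ e ∈ box R, ω e ≤ 16 * j ^ 2 + 16 * j + 8 → ¬Good j m ω →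
      ∃ l, endpt (0, 0) l = (m, 0) ∧ (∀ e ∈ edges (0, 0) l, e ∈ box R) ∧
        cost ω (0, 0) l ≤ 4 * j + 1 ∧ (edges (0, 0) l).length ≤ L := by
  have key : ∀ ω : Edge → ℕ, ∃ l, ω ∈ Cfg R → ∑ e ∈ box R, ω e ≤ 16 * j ^ 2 + 16 * j + 8 →
      ¬Good j m ω → endpt (0, 0) l = (m, 0) ∧ (∀ e ∈ edges (0, 0) l, e ∈ box R) ∧
        cost ω (0, 0) l ≤ 4 * j + 1 := by
    intro ω
    by_cases h : ω ∈ Cfg R ∧ ∑ e ∈ box R, ω e ≤ 16 * j ^ 2 + 16 * j + 8 ∧ ¬Good j m ω
    · obtain ⟨h1, h2, h3⟩ := h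
      unfold Good at h3
      push Not at h3
      obtain ⟨l, hl, hc⟩ := h3
      obtain ⟨r, r1, r2, r3⟩ := exists_ring ω h1.1 m _ h2
      obtain ⟨l', a1, a2, a3⟩ := clamp_path (by omega : 0 ≤ r) ω r3 (0, 0) l
      have c0 : clamp r (0, 0) = (0, 0) := by simp only [clamp, Prod.mk.injEq]; omega
      have cm : clamp r (m, 0) = (m, 0) := by simp only [clamp, Prod.mk.injEq]; omega
      rw [c0] at a1 a2 a3
      rw [hl, cm] at a1
      refine ⟨l', fun _ _ _ => ⟨a1, fun e he => ?_, by omega⟩⟩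
      have := a2 e he
      rw [mem_box] at this ⊢; omega
    · exact ⟨[], fun h1 h2 h3 => absurd ⟨h1, h2, h3⟩ h⟩
  choose f hf using key
  obtain ⟨L, hL⟩ := ((cfg_finite R).image fun ω => (edges (0, 0) (f ω)).length).bddAbove
  exact ⟨L, fun ω h1 h2 h3 => ⟨f ω, (hf ω h1 h2 h3).1, (hf ω h1 h2 h3).2.1, (hf ω h1 h2 h3).2.2,
    hL ⟨ω, h1, rfl⟩⟩⟩

end Pool.Agent.H.MP_79314c_pr
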