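import Pool.Agent.H.MP_79314c_pr.C

namespace Pool.Agent.H.MP_79314c_pr
open Finset MeasureTheory
open scoped NNReal

/-- Uniform law on the unit interval. -/
noncomputable def nu : Measure ℝ := volume.restrict (Set.Ico 0 1)

instance : IsProbabilityMeasure nu := ⟨by simp [nu]⟩

/-- Product of uniform laws. -/
noncomputable def Pu : Measure (Edge → ℝ) := Measure.infinitePi fun _ : Edge => nu

instance : IsProbabilityMeasure Pu := by unfold Pu; infer_instance

/-- Class of a uniform variable at scale `u`. -/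
noncomputable def cls (u x : ℝ) : ℕ :=
  if x ∈ Set.Ico u (2 * u) then 1 else if x ∈ Set.Ico (u ^ 2) (3 * u ^ 2) then 2 else 0

lemma cls_le (u x : ℝ) : cls u x ≤ 2 := by unfold cls; split_ifs <;> omega

lemma cls_meas (u : ℝ) : Measurable (cls u) :=
  Measurable.ite measurableSet_Ico measurable_const
    (Measurable.ite measurableSet_Ico measurable_const measurable_const)

lemma nu_Ico {a b : ℝ} (h0 : 0 ≤ a) (h1 : a ≤ b) (h2 : b ≤ 1) : nu.real (Set.Ico a b) = b - a := by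
  rw [nu, measureReal_restrict_apply measurableSet_Ico,
    Set.inter_eq_left.2 (Set.Ico_subset_Ico h0 h2), Real.volume_real_Ico_of_le h1]

lemma nu_Iio {v : ℝ} (h0 : 0 ≤ v) : nu.real (Set.Iio v) ≤ v := by
  rw [nu, measureReal_restrict_apply measurableSet_Iio]
  refine (measureReal_mono (s₂ := Set.Ico 0 v) (fun x hx => ⟨hx.2.1, hx.1⟩)
    (by simp)).trans ?_
  rw [Real.volume_real_Ico_of_le h0, sub_zero]

lemma cls_one (u : ℝ) : cls u ⁻¹' {1} = Set.Ico u (2 * u) := by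
  ext x; simp only [Set.mem_preimage, Set.mem_singleton_iff, cls]
  split_ifs with h1 h2 <;> simp [h1]

lemma cls_two {u : ℝ} (h0 : 0 < u) (h1 : u ≤ 1 / 3) :
    cls u ⁻¹' {2} = Set.Ico (u ^ 2) (3 * u ^ 2) := by
  ext x; simp only [Set.mem_preimage, Set.mem_singleton_iff, cls]
  split_ifs with a1 a2
  · simp only [Set.mem_Ico] at a1 ⊢
    constructor
    · intro h; omega
    · intro h; nlinarith [h.2, a1.1]
  · simp [a2]
  · simp [a2]

lemma cls_prob {u : ℝ} (h0 : 0 < u) (h1 : u ≤ 1 / 3) {i : ℕ} (hi : i ≤ 2) :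
    nu.real (cls u ⁻¹' {i}) ≤ u ^ i * 2 ^ two i ∧
      u ^ i * 2 ^ two i * (1 - 3 * u) ≤ nu.real (cls u ⁻¹' {i}) := by
  have p1 : nu.real (cls u ⁻¹' {1}) = u := by
    rw [cls_one, nu_Ico h0.le (by linarith) (by linarith)]; ring
  have p2 : nu.real (cls u ⁻¹' {2}) = 2 * u ^ 2 := by
    rw [cls_two h0 h1, nu_Ico (by positivity) (by nlinarith) (by nlinarith)]; ring
  interval_cases i
  · refine ⟨by simpa [two] using measureReal_le_one, ?_⟩
    have : (Set.univ : Set ℝ) ⊆ cls u ⁻¹' {0} ∪ (cls u ⁻¹' {1} ∪ cls u ⁻¹' {2}) := by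
      intro x _
      have := cls_le u x
      simp only [Set.mem_union, Set.mem_preimage, Set.mem_singleton_iff]; omega
    have a := measureReal_mono (μ := nu) this
    have b := measureReal_union_le (μ := nu) (cls u ⁻¹' {0}) (cls u ⁻¹' {1} ∪ cls u ⁻¹' {2})
    have c := measureReal_union_le (μ := nu) (cls u ⁻¹' {1}) (cls u ⁻¹' {2})
    simp only [probReal_univ] at a
    simp only [two]; norm_num; nlinarith
  · rw [p1]; simp only [two]; norm_num; nlinarith
  · rw [p2]; simp only [two]; norm_num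
    constructor
    · linarith
    · nlinarith [pow_pos h0 3]

/-- The event that the classes in the box are given by `ω`. -/
def Ev (R : ℤ) (u : ℝ) (ω : Edge → ℕ) : Set (Edge → ℝ) :=
  Set.pi (box R : Set Edge) fun e => cls u ⁻¹' {ω e}

lemma ev_meas (R : ℤ) (u : ℝ) (ω : Edge → ℕ) : MeasurableSet (Ev R u ω) :=
  MeasurableSet.pi (Finset.countable_toSet _) fun _ _ => cls_meas u (measurableSet_singleton _)

lemma ev_prob {u : ℝ} (h0 : 0 < u) (h1 : u ≤ 1 / 3) (R : ℤ) {ω : Edge → ℕ} (hω : ω ∈ Cfg R) :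
    Pu.real (Ev R u ω) ≤ u ^ (∑ e ∈ box R, ω e) * 2 ^ N2 R ω ∧
      u ^ (∑ e ∈ box R, ω e) * 2 ^ N2 R ω * (1 - 3 * u) ^ (box R).card ≤ Pu.real (Ev R u ω) := by
  have e : Pu.real (Ev R u ω) = ∏ e ∈ box R, nu.real (cls u ⁻¹' {ω e}) := by
    rw [Measure.real, Pu, Ev, Measure.infinitePi_pi _
      (fun _ _ => cls_meas u (measurableSet_singleton _)), ENNReal.toReal_prod]
    rfl
  have f : u ^ (∑ e ∈ box R, ω e) * 2 ^ N2 R ω = ∏ e ∈ box R, (u ^ ω e * 2 ^ two (ω e)) := by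
    rw [Finset.prod_mul_distrib, Finset.prod_pow_eq_pow_sum, Finset.prod_pow_eq_pow_sum, N2]
  rw [e, f, ← Finset.prod_const, ← Finset.prod_mul_distrib]
  have : 0 ≤ 1 - 3 * u := by linarith
  exact ⟨Finset.prod_le_prod (fun _ _ => measureReal_nonneg) fun e _ => (cls_prob h0 h1 (hω.2 e)).1,
    Finset.prod_le_prod (fun _ _ => by positivity) fun e _ => (cls_prob h0 h1 (hω.2 e)).2⟩

lemma endpt_replicate (x : ℤ) (n : ℕ) :
    endpt (x, 0) (List.replicate n (false, true)) = (x + n, 0) := by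
  induction n generalizing x with
  | zero => simp [endpt]
  | succ n ih =>
    simp only [List.replicate_succ, endpt, move, unit, if_true, Bool.false_eq_true, if_false,
      Prod.mk_add_mk, add_zero, ih]
    push_cast; ring_nf

lemma sum_ge (M : ℝ≥0) (ω : Edge → ℕ) (τ : Edge → ℝ≥0) (h : ∀ e, M * ω e ≤ τ e) (l : List Edge) :
    M * ((l.map ω).sum : ℕ) ≤ (l.map τ).sum := by
  induction l with
  | nil => simp
  | cons a l ih =>
    simp only [List.map_cons, List.sum_cons, Nat.cast_add, mul_add]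
    exact add_le_add (h a) ih

lemma sum_le (M B : ℝ≥0) (ω : Edge → ℕ) (τ : Edge → ℝ≥0) (l : List Edge)
    (h : ∀ e ∈ l, τ e ≤ M * ω e + B) :
    (l.map τ).sum ≤ M * ((l.map ω).sum : ℕ) + l.length * B := by
  induction l with
  | nil => simp
  | cons a l ih =>
    have h1 := h a (by simp)
    have h2 := ih fun e he => h e (by simp [he])
    simp only [List.map_cons, List.sum_cons, Nat.cast_add, mul_add, List.length_cons, add_mul,
      Nat.cast_one, one_mul]
    calc _ ≤ (M * ω a + B) + (M * ((l.map ω).sum : ℕ) + l.length * B) := add_le_add h1 h2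
      _ = _ := by ring

lemma scale_low {R m : ℤ} {j n : ℕ} (hn : m = n) (hR : m + 4 * j + 2 ≤ R) {u : ℝ} (u0 : 0 < u)
    (u1 : u ≤ 1 / 3) {M t : ℝ≥0} (ht : t < M * (4 * j + 2 : ℕ)) {g : ℝ → ℝ≥0}
    (g1 : ∀ x, M * cls u x ≤ g x) :
    ((∑ ω ∈ (mn_finite R j m).toFinset, 2 ^ N2 R ω : ℕ) : ℝ) * u ^ (16 * j ^ 2 + 16 * j + 8) *
      (1 - 3 * u) ^ (box R).card ≤ Pu.real {X | t < T (fun e => g (X e)) (0, 0) (m, 0)} := by
  have sub : (⋃ ω ∈ (mn_finite R j m).toFinset, Ev R u ω) ⊆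
      {X | t < T (fun e => g (X e)) (0, 0) (m, 0)} := by
    intro X hX
    simp only [Set.mem_iUnion] at hX
    obtain ⟨ω, hω, hX⟩ := hX
    rw [Set.Finite.mem_toFinset] at hω
    have : Nonempty {l : List Step // endpt (0, 0) l = (m, 0)} :=
      ⟨⟨_, by rw [endpt_replicate 0 n, zero_add, hn]⟩⟩
    refine lt_of_lt_of_le ht (le_ciInf fun l => ?_)
    refine le_trans ?_ (sum_ge M ω _ (fun e => ?_) _)
    · exact mul_le_mul_right (Nat.cast_le.2 (hω.2.2 l.1 l.2)) M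
    · by_cases he : e ∈ box R
      · have : cls u (X e) = ω e := hX e he
        rw [← this]; exact g1 _
      · simp [hω.1.1 e he]
  refine le_trans ?_ (measureReal_mono sub)
  rw [measureReal_biUnion_finset ?_ (fun ω _ => ev_meas R u ω)]
  · push_cast
    rw [Finset.sum_mul, Finset.sum_mul]
    refine Finset.sum_le_sum fun ω hω => ?_
    rw [Set.Finite.mem_toFinset] at hω
    have h1 := (ev_prob u0 u1 R hω.1).2
    rw [(mn_pot hω (by omega) hR).2.2] at h1
    rw [mul_comm (2 ^ N2 R ω)]; exact h1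
  · intro ω hω ω' hω' hne
    rw [Finset.mem_coe, Set.Finite.mem_toFinset] at hω hω'
    refine Set.disjoint_left.2 fun X h1 h2 => hne (funext fun e => ?_)
    by_cases he : e ∈ box R
    · exact (h1 e he).symm.trans (h2 e he)
    · rw [hω.1.1 e he, hω'.1.1 e he]

lemma scale_up {R m : ℤ} {j L : ℕ} (hm : 0 ≤ m) (hR : m + 4 * j + 2 ≤ R)
    (hL : ∀ ω ∈ Cfg R, ∑ e ∈ box R, ω e ≤ 16 * j ^ 2 + 16 * j + 8 → ¬Good j m ω →
      ∃ l, endpt (0, 0) l = (m, 0) ∧ (∀ e ∈ edges (0, 0) l, e ∈ box R) ∧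
        cost ω (0, 0) l ≤ 4 * j + 1 ∧ (edges (0, 0) l).length ≤ L)
    {u : ℝ} (u0 : 0 < u) (u1 : u ≤ 1 / 3) {v : ℝ} (v0 : 0 ≤ v)
    (hv : v ≤ u ^ (16 * j ^ 2 + 16 * j + 8 + 1)) {M B : ℝ≥0} {g : ℝ → ℝ≥0}
    (g2 : ∀ x, v ≤ x → g x ≤ M * cls u x + B) :
    Pu.real {X | M * (4 * j + 1 : ℕ) + L * B < T (fun e => g (X e)) (0, 0) (m, 0)} ≤
      (box R).card * u ^ (16 * j ^ 2 + 16 * j + 8 + 1) +
      ((cfg_finite R).toFinset.card * 2 ^ (box R).card * u ^ (16 * j ^ 2 + 16 * j + 8 + 1) +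
        ((∑ ω ∈ (mn_finite R j m).toFinset, 2 ^ N2 R ω : ℕ) : ℝ) *
          u ^ (16 * j ^ 2 + 16 * j + 8)) := by
  classical
  have hI1 : ∀ ω ∈ Mn R j m, ∑ e ∈ box R, ω e = 16 * j ^ 2 + 16 * j + 8 := fun ω hω =>
    (mn_pot hω hm hR).2.2
  have hmn : ∀ ω ∈ Cfg R, ∑ e ∈ box R, ω e ≤ 16 * j ^ 2 + 16 * j + 8 → Good j m ω →
      ω ∈ Mn R j m := fun ω a b c => ⟨a, b, c⟩
  generalize 16 * j ^ 2 + 16 * j + 8 = I at hL hv hI1 hmn ⊢
  have sub : {X | M * (4 * j + 1 : ℕ) + L * B < T (fun e => g (X e)) (0, 0) (m, 0)} ⊆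
      (⋃ e ∈ box R, (fun X : Edge → ℝ => X e) ⁻¹' Set.Iio v) ∪
      ((⋃ ω ∈ (cfg_finite R).toFinset.filter (fun ω => I + 1 ≤ ∑ e ∈ box R, ω e), Ev R u ω) ∪
        ⋃ ω ∈ (mn_finite R j m).toFinset, Ev R u ω) := by
    intro X hX
    by_contra hc
    simp only [Set.mem_union, Set.mem_iUnion, not_or, not_exists, Set.mem_preimage,
      Set.mem_Iio, not_lt, Finset.mem_filter] at hc
    obtain ⟨c1, c2, c3⟩ := hc
    obtain ⟨ω, hω⟩ : ∃ ω : Edge → ℕ, ∀ e, ω e = if e ∈ box R then cls u (X e) else 0 :=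
      ⟨_, fun _ => rfl⟩
    have w1 : ω ∈ Cfg R := ⟨fun e he => by rw [hω, if_neg he], fun e => by
      rw [hω]; split_ifs
      · exact cls_le _ _
      · omega⟩
    have w2 : X ∈ Ev R u ω := fun e he => ((hω e).trans (if_pos he)).symm
    have w3 : ∑ e ∈ box R, ω e ≤ I := by
      by_contra h
      exact c2 ω ⟨(Set.Finite.mem_toFinset _).2 w1, by omega⟩ w2
    have w4 : ¬Good j m ω := fun h =>
      c3 ω ((Set.Finite.mem_toFinset _).2 (hmn ω w1 w3 h)) w2
    obtain ⟨l, l1, l2, l3, l4⟩ := hL ω w1 w3 w4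
    refine (not_lt.2 ?_ : ¬(M * (4 * j + 1 : ℕ) + L * B <
      T (fun e => g (X e)) (0, 0) (m, 0))) hX
    refine (ciInf_le (OrderBot.bddBelow _) ⟨l, l1⟩).trans ?_
    refine (sum_le M B ω _ _ fun e he => ?_).trans ?_
    · have : ω e = cls u (X e) := (hω e).trans (if_pos (l2 e he))
      rw [this]; exact g2 _ (c1 e (l2 e he))
    · exact add_le_add (mul_le_mul_right (Nat.cast_le.2 l3) M)
        (mul_le_mul_left (Nat.cast_le.2 l4) B)
  refine (measureReal_mono sub).trans ((measureReal_union_le _ _).trans (add_le_add ?_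
    ((measureReal_union_le _ _).trans (add_le_add ?_ ?_))))
  · refine (measureReal_biUnion_finset_le _ _).trans ?_
    refine (Finset.sum_le_card_nsmul _ _ (u ^ (I + 1)) fun e _ => ?_).trans
      (le_of_eq (nsmul_eq_mul _ _))
    have := (measurePreserving_eval_infinitePi (fun _ : Edge => nu) e).measureReal_preimage
      (s := Set.Iio v) measurableSet_Iio.nullMeasurableSet
    exact (le_of_eq this).trans ((nu_Iio v0).trans hv)
  · refine (measureReal_biUnion_finset_le _ _).trans ?_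
    refine (Finset.sum_le_card_nsmul _ _ (2 ^ (box R).card * u ^ (I + 1)) fun ω hω => ?_).trans ?_
    · rw [Finset.mem_filter, Set.Finite.mem_toFinset] at hω
      refine (ev_prob u0 u1 R hω.1).1.trans ?_
      rw [mul_comm]
      refine mul_le_mul (pow_le_pow_right₀ (by norm_num) ?_)
        (pow_le_pow_of_le_one u0.le (by linarith) hω.2) (by positivity) (by positivity)
      refine (Finset.sum_le_card_nsmul _ _ 1 fun e _ => ?_).trans (by simp)
      unfold two; split_ifs <;> omega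
    · rw [nsmul_eq_mul, mul_assoc]
      exact mul_le_mul_of_nonneg_right
        (Nat.cast_le.2 (Finset.card_le_card (Finset.filter_subset _ _))) (by positivity)
  · refine (measureReal_biUnion_finset_le _ _).trans ?_
    push_cast
    rw [Finset.sum_mul]
    refine Finset.sum_le_sum fun ω hω => ?_
    rw [Set.Finite.mem_toFinset] at hω
    have h1 := (ev_prob u0 u1 R hω.1).1
    rw [hI1 ω hω] at h1
    rw [mul_comm (2 ^ N2 R ω)]; exact h1

lemma final_ineq {K C Z0 Z1 u P : ℝ} (k : ℕ) (hk : K = k) (u1 : u ≤ 1 / 3) (hP : 0 < P)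
    (hz : Z1 + 1 ≤ Z0) (h0 : 0 ≤ Z0) (uA : (K + C + 3 * K * Z0) * u < 1) :
    K * (P * u) + (C * (P * u) + Z1 * P) < Z0 * P * (1 - 3 * u) ^ k := by
  have hb : 1 + k * (-(3 * u)) ≤ (1 + -(3 * u)) ^ k := one_add_mul_le_pow (by linarith) k
  rw [← hk, ← sub_eq_add_neg] at hb
  calc _ = P * ((K + C) * u + Z1) := by ring
    _ < P * (Z0 * (1 + K * (-(3 * u)))) := by
        gcongr
        nlinarith
    _ ≤ P * (Z0 * (1 - 3 * u) ^ k) := by gcongr
    _ = _ := by ring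

theorem scale (j : ℕ) : ∃ L : ℕ, ∃ ε : ℝ, 0 < ε ∧ ε ≤ 1 / 3 ∧ ∀ u, 0 < u → u ≤ ε →
    ∀ v, 0 ≤ v → v ≤ u ^ (16 * j ^ 2 + 16 * j + 8 + 1) → ∀ M B : ℝ≥0, L * B < M →
      ∀ g : ℝ → ℝ≥0,
      (∀ x, M * cls u x ≤ g x) → (∀ x, v ≤ x → g x ≤ M * cls u x + B) → ∃ t : ℝ≥0,
        Pu.real {X | t < T (fun e => g (X e)) (0, 0) (2 * j + 2, 0)} <
          Pu.real {X | t < T (fun e => g (X e)) (0, 0) (2 * j + 1, 0)} := by
  obtain ⟨R, hR1, hR2⟩ : ∃ R : ℤ, 6 * j + 4 ≤ R ∧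
      2 * j + 2 + (16 * j ^ 2 + 16 * j + 8 : ℕ) ≤ R :=
    ⟨6 * j + 4 + (16 * j ^ 2 + 16 * j + 8 : ℕ), by omega, by omega⟩
  obtain ⟨L, hL⟩ := reroute (R := R) (m := 2 * j + 2) (j := j) (by positivity) hR2
  have hz := z_lt (R := R) (j := j) hR1
  obtain ⟨A, A0, hA⟩ : ∃ A : ℝ, 0 ≤ A ∧ A = ((box R).card : ℝ) +
      (cfg_finite R).toFinset.card * 2 ^ (box R).card + 3 * (box R).card *
      ((∑ ω ∈ (mn_finite R j (2 * j + 1)).toFinset, 2 ^ N2 R ω : ℕ) : ℝ) :=
    ⟨_, by positivity, rfl⟩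
  refine ⟨L, min (1 / 3) (1 / (A + 1)), by positivity, min_le_left _ _, ?_⟩
  intro u u0 uε v v0 hv M B hMB g g1 g2
  have u1 : u ≤ 1 / 3 := uε.trans (min_le_left _ _)
  have uA : A * u < 1 := by
    have := uε.trans (min_le_right _ _)
    rw [le_div_iff₀ (by positivity)] at this
    nlinarith
  refine ⟨M * (4 * j + 1 : ℕ) + L * B, ?_⟩
  refine (scale_up (by positivity) (by omega) hL u0 u1 v0 hv g2).trans_lt
    (lt_of_lt_of_le ?_ (scale_low (R := R) (j := j) (n := 2 * j + 1) (by push_cast; rfl)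
      (by omega) u0 u1 ?_ g1))
  · rw [pow_succ u]
    exact final_ineq _ rfl u1 (by positivity) (by exact_mod_cast hz) (by positivity) (hA ▸ uA)
  · push_cast
    calc _ < M * (4 * j + 1) + M := by gcongr
      _ = _ := by ring

end Pool.Agent.H.MP_79314c_pr
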