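import Mathlib

namespace Pool.Agent.H.MP_79314c_pr
open scoped NNReal

/-- Vertices of the square lattice. -/
abbrev V := ℤ × ℤ

/-- Nearest-neighbour edges: `(v, false)` joins `v` and `v + (1,0)`, `(v, true)` joins `v` and
`v + (0,1)`. -/
abbrev Edge := V × Bool

/-- The two coordinate unit vectors. -/
def unit (d : Bool) : V := if d then (0, 1) else (1, 0)

/-- A lattice step: a coordinate direction and a sign (`true` = forward). -/
abbrev Step := Bool × Bool

/-- The vertex reached from `u` by the step `s`. -/
def move (u : V) (s : Step) : V := if s.2 then u + unit s.1 else u - unit s.1

/-- The edge crossed by the step `s` from `u`. -/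
def edgeOf (u : V) (s : Step) : Edge := if s.2 then (u, s.1) else (u - unit s.1, s.1)

/-- The endpoint of the lattice path starting at `u` with the given steps. -/
def endpt : V → List Step → V
  | u, [] => u
  | u, s :: l => endpt (move u s) l

/-- The edges of the lattice path starting at `u` with the given steps. -/
def edges : V → List Step → List Edge
  | _, [] => []
  | u, s :: l => edgeOf u s :: edges (move u s) l

/-- First-passage time: the infimum of the total weight over lattice paths from `u` to `v`. -/
noncomputable def T (τ : Edge → ℝ≥0) (u v : V) : ℝ≥0 :=
  ⨅ l : {l : List Step // endpt u l = v}, ((edges u l.1).map τ).sum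

end Pool.Agent.H.MP_79314c_pr
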