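import Pool.Agent.H.MP_79314c_pr.D

namespace Pool.Agent.H.MP_79314c_pr
open MeasureTheory
open scoped NNReal

lemma T_meas (u v : V) : Measurable fun τ : Edge → ℝ≥0 => T τ u v := by
  refine Measurable.iInf fun l => ?_
  generalize edges u l.1 = s
  induction s with
  | nil => simp
  | cons a s ih =>
    simp only [List.map_cons, List.sum_cons]
    exact (measurable_pi_apply a).add ih

lemma cls_zero {u x : ℝ} (u0 : 0 < u) (u1 : u ≤ 1 / 3) (h : x ≤ 0 ∨ 2 * u ≤ x) : cls u x = 0 := by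
  unfold cls
  rw [if_neg, if_neg]
  · rintro ⟨a, b⟩
    rcases h with h | h
    · nlinarith [pow_pos u0 2]
    · nlinarith
  · rintro ⟨a, b⟩
    rcases h with h | h <;> linarith

lemma exists_seq (ε : ℕ → ℝ) (ε0 : ∀ k, 0 < ε k) (ε1 : ∀ k, ε k ≤ 1 / 3) (N L : ℕ → ℕ) :
    ∃ (u : ℕ → ℝ) (B : ℕ → ℝ≥0) (g : ℝ → ℝ≥0), Measurable g ∧ ∀ k, 0 < u k ∧ u k ≤ ε k ∧
      2 * u (k + 1) ≤ u k ^ (N k + 1) ∧ (∀ x, (L k * B k + 1) * cls (u k) x ≤ g x) ∧
      ∀ x, 2 * u (k + 1) ≤ x → g x ≤ (L k * B k + 1) * cls (u k) x + B k := by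
  obtain ⟨u, hu0, hus⟩ : ∃ u : ℕ → ℝ, u 0 = ε 0 ∧
      ∀ k, u (k + 1) = min (ε (k + 1)) (u k ^ (N k + 1) / 2) :=
    ⟨fun k => Nat.rec (ε 0) (fun k a => min (ε (k + 1)) (a ^ (N k + 1) / 2)) k, rfl, fun _ => rfl⟩
  obtain ⟨B, hBs⟩ : ∃ B : ℕ → ℝ≥0, ∀ k, B (k + 1) = B k + (L k * B k + 1) * 2 :=
    ⟨fun k => Nat.rec 0 (fun k a => a + (L k * a + 1) * 2) k, fun _ => rfl⟩
  have upos : ∀ k, 0 < u k := fun k => by
    induction k with
    | zero => rw [hu0]; exact ε0 0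
    | succ k ih => rw [hus]; exact lt_min (ε0 _) (by positivity)
  have uε : ∀ k, u k ≤ ε k := fun k => by
    cases k with
    | zero => exact hu0.le
    | succ k => rw [hus]; exact min_le_left _ _
  have u3 : ∀ k, u k ≤ 1 / 3 := fun k => (uε k).trans (ε1 k)
  have uv : ∀ k, 2 * u (k + 1) ≤ u k ^ (N k + 1) := fun k => by
    have := min_le_right (ε (k + 1)) (u k ^ (N k + 1) / 2)
    rw [← hus] at this; linarith
  have uh : ∀ k, 2 * u (k + 1) ≤ u k := fun k =>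
    (uv k).trans (pow_le_of_le_one (upos k).le (by linarith [u3 k]) (by omega))
  have uanti : Antitone u := antitone_nat_of_succ_le fun k => by linarith [uh k, upos (k + 1)]
  have ugeo : ∀ k, u k ≤ (1 / 2) ^ k := fun k => by
    induction k with
    | zero => linarith [u3 0, pow_zero (1 / 2 : ℝ)]
    | succ k ih => rw [pow_succ]; linarith [uh k]
  have Bmono : Monotone B := monotone_nat_of_le_succ fun k => by rw [hBs]; exact le_self_add
  have key : ∀ k x, 2 * u (k + 1) ≤ x → ∀ i, (L i * B i + 1) * (cls (u i) x : ℝ≥0) ≤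
      (L k * B k + 1) * cls (u k) x + B k := by
    intro k x hx i
    rcases lt_trichotomy i k with h | rfl | h
    · refine le_add_left (le_trans ?_ (Bmono (Nat.succ_le_of_lt h)))
      rw [hBs]
      refine le_add_left (mul_le_mul_right ?_ _)
      exact_mod_cast cls_le _ _
    · exact le_self_add
    · rw [cls_zero (upos i) (u3 i) (Or.inr (by linarith [uanti (Nat.succ_le_of_lt h)]))]
      simp
  have bdd : ∀ x, BddAbove (Set.range fun i => (L i * B i + 1) * (cls (u i) x : ℝ≥0)) := by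
    intro x
    rcases le_or_gt x 0 with hx | hx
    · refine ⟨0, ?_⟩
      rintro _ ⟨i, rfl⟩
      simp [cls_zero (upos i) (u3 i) (Or.inl hx)]
    · obtain ⟨k, hk⟩ := exists_pow_lt_of_lt_one hx (by norm_num : (1 / 2 : ℝ) < 1)
      refine ⟨(L k * B k + 1) * cls (u k) x + B k, ?_⟩
      rintro _ ⟨i, rfl⟩
      exact key k x (by linarith [uh k, ugeo k]) i
  have hc : Measurable (Nat.cast : ℕ → ℝ≥0) := measurable_from_top
  have hm : ∀ i, Measurable fun x => (L i * B i + 1) * (cls (u i) x : ℝ≥0) := fun i =>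
    measurable_const.mul (hc.comp (cls_meas _))
  exact ⟨u, B, fun x => ⨆ i, (L i * B i + 1) * (cls (u i) x : ℝ≥0), Measurable.iSup hm,
    fun j => ⟨upos j, uε j, uv j, fun x => le_ciSup (bdd x) j, fun x hx => ciSup_le (key j x hx)⟩⟩

theorem exists_g : ∃ g : ℝ → ℝ≥0, Measurable g ∧ ∀ j : ℕ, ∃ t : ℝ≥0,
    Pu.real {X | t < T (fun e => g (X e)) (0, 0) (2 * j + 2, 0)} <
      Pu.real {X | t < T (fun e => g (X e)) (0, 0) (2 * j + 1, 0)} := by
  choose L ε ε0 ε1 H using scale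
  obtain ⟨u, B, g, hg, K⟩ := exists_seq ε ε0 ε1 (fun j => 16 * j ^ 2 + 16 * j + 8) L
  refine ⟨g, hg, fun j => ?_⟩
  obtain ⟨k1, k2, k3, k4, k5⟩ := K j
  exact H j (u j) k1 k2 (2 * u (j + 1)) (mul_pos two_pos (K (j + 1)).1).le k3
    (L j * B j + 1) (B j) (lt_add_one _) g k4 k5

theorem main : ∃ F : Measure ℝ≥0, IsProbabilityMeasure F ∧ ∀ j : ℕ, ∃ t : ℝ≥0,
    Measure.infinitePi (fun _ : Edge => F) {τ | t < T τ (0, 0) (2 * j + 2, 0)} <
      Measure.infinitePi (fun _ : Edge => F) {τ | t < T τ (0, 0) (2 * j + 1, 0)} := by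
  obtain ⟨g, hg, H⟩ := exists_g
  refine ⟨nu.map g, Measure.isProbabilityMeasure_map hg.aemeasurable, fun j => ?_⟩
  obtain ⟨t, ht⟩ := H j
  refine ⟨t, ?_⟩
  rw [← Measure.infinitePi_map_pi (fun _ : Edge => nu) (fun _ => hg),
    Measure.map_apply (by fun_prop) (measurableSet_lt measurable_const (T_meas _ _)),
    Measure.map_apply (by fun_prop) (measurableSet_lt measurable_const (T_meas _ _))]
  exact (ENNReal.toReal_lt_toReal (measure_ne_top Pu _) (measure_ne_top Pu _)).1 ht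

end Pool.Agent.H.MP_79314c_pr
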